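import Pool.Agent.P8H98.DF.Stm3
import Pool.Agent.P8H63.DF.End

set_option autoImplicit false

/-! # Project DF, packages LEN and STP -/

namespace Pool.Agent.P8H42.DF

open Finset Filter Topology
open scoped Classical
open Pool.Agent.P8H98.DF
open Pool.Agent.N929.EG

noncomputable section

/-- the number of moves is at most linear -/
theorem len : S_LEN := by
  intro n u hu S hS
  obtain ⟨hl, _⟩ := mem_SS.1 hu
  let f : Z4 × Dir × Dir → List Z4 × List Z4 := fun x =>
    ([x.1, x.1 + vec x.2.2], [x.1, x.1 + vec x.2.1, x.1 + vec x.2.1 + vec x.2.2, x.1 + vec x.2.2])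
  have hsub : S ⊆ (((path u).toFinset) ×ˢ (univ : Finset (Dir × Dir))).image f := by
    intro q hq
    obtain ⟨⟨p, d, e, _, h1, h2⟩, h3, _⟩ := (hS q).1 hq
    rw [mem_image]
    refine ⟨(p, d, e), ?_, ?_⟩
    · rw [mem_product]
      refine ⟨?_, mem_univ _⟩
      rw [List.mem_toFinset, ← List.mem_reverse]
      refine h3.subset ?_
      rw [h1]
      exact List.mem_cons_self
    · exact Prod.ext h1.symm h2.symm
  have hc : ((path u).toFinset).card ≤ n + 1 := by
    refine (List.toFinset_card_le _).trans ?_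
    rw [path_length, hl]
  have hd : (univ : Finset (Dir × Dir)).card = 64 := by
    rw [Finset.card_univ, Fintype.card_prod]
    rfl
  calc S.card ≤ _ := card_le_card hsub
    _ ≤ _ := card_image_le
    _ = (path u).toFinset.card * 64 := by rw [card_product, hd]
    _ ≤ (n + 1) * 64 := Nat.mul_le_mul_right _ hc
    _ = 64 * (n + 1) := Nat.mul_comm _ _

/-- one more step -/
theorem stp : S_STP := by
  intro p hp n
  unfold w4
  have hnn : ∀ u : List Dir, 0 ≤ (max 1 (norm2 (E (pos u)))) ^ p := fun u =>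
    Real.rpow_nonneg (le_trans zero_le_one (le_max_left _ _)) _
  have hsub : SS (n + 1) ⊆ ((univ : Finset Dir) ×ˢ SS n).image (fun x => x.1 :: x.2) := by
    intro w hw
    obtain ⟨h1, h2⟩ := mem_SS.1 hw
    cases w with
    | nil => simp at h1
    | cons v u =>
      rw [mem_image]
      refine ⟨(v, u), ?_, rfl⟩
      rw [mem_product]
      refine ⟨mem_univ _, mem_SS.2 ⟨by simpa using h1, ?_⟩⟩
      unfold SAW at h2 ⊢
      exact (List.nodup_cons.1 h2).2
  have hstep : ∀ (v : Dir) (u : List Dir), (max 1 (norm2 (E (pos (v :: u))))) ^ p ≤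
      2 ^ p * (max 1 (norm2 (E (pos u)))) ^ p := by
    intro v u
    rw [← Real.mul_rpow (by norm_num) (le_trans zero_le_one (le_max_left _ _))]
    refine Real.rpow_le_rpow (le_trans zero_le_one (le_max_left _ _)) ?_ hp
    have h1 : norm2 (E (pos (v :: u))) ≤ norm2 (E (pos u)) + 1 := by
      have h2 := Pool.Agent.P8H63.DF.norm2_add (E (pos u)) (E (vec v))
      rw [Pool.Agent.P8H63.DF.norm2_vec, ← Pool.Agent.P8H63.DF.E_add] at h2
      exact h2
    have h3 : (1 : ℝ) ≤ max 1 (norm2 (E (pos u))) := le_max_left _ _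
    have h4 : norm2 (E (pos u)) ≤ max 1 (norm2 (E (pos u))) := le_max_right _ _
    exact max_le (by linarith) (by linarith)
  calc ∑ u ∈ SS (n + 1), (max 1 (norm2 (E (pos u)))) ^ p
      ≤ ∑ u ∈ ((univ : Finset Dir) ×ˢ SS n).image (fun x => x.1 :: x.2),
          (max 1 (norm2 (E (pos u)))) ^ p :=
        sum_le_sum_of_subset_of_nonneg hsub fun u _ _ => hnn u
    _ ≤ ∑ x ∈ (univ : Finset Dir) ×ˢ SS n, (max 1 (norm2 (E (pos (x.1 :: x.2))))) ^ p :=
        sum_image_le_of_nonneg fun x _ => hnn _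
    _ ≤ ∑ x ∈ (univ : Finset Dir) ×ˢ SS n, 2 ^ p * (max 1 (norm2 (E (pos x.2)))) ^ p :=
        sum_le_sum fun x _ => hstep x.1 x.2
    _ = 8 * 2 ^ p * ∑ u ∈ SS n, (max 1 (norm2 (E (pos u)))) ^ p := by
        rw [sum_product]
        simp only [sum_const, nsmul_eq_mul, ← mul_sum]
        have : ((univ : Finset Dir).card : ℝ) = 8 := by
          have : (univ : Finset Dir).card = 8 := rfl
          rw [this]; norm_num
        rw [this]; ring

end

end Pool.Agent.P8H42.DF
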